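import Pool.Agent.H57.EH.V2

/-!
# EH-V3: the Dirichlet principle against Vandermonde products

`TF A ε γ δ u V`: `u` is a test function with gradient field `V`: FTC on almost every ray from the points of `A`,
`u ≥ log |z| + γ - o(1)` at infinity, `u ≤ δ` on the circles of radius `ε` about the points of `A`, and Dirichlet energy
`≤ 2π (log R + γ) + o(1)` on `|z| < R`. Then `‖det vandermonde z‖² ≤ ε^{-N} exp (N² (-γ + 2 δ))` for `z : Fin N → A`.
-/

set_option autoImplicit false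

open MeasureTheory Set Complex Metric Filter
open scoped Real ComplexConjugate ENNReal

noncomputable section

namespace Pool.Agent.H57.EH

/-- test functions for the set `A` -/
structure TF (A : Set ℂ) (ε γ δ : ℝ) (u : ℂ → ℝ) (V : ℂ → ℂ) : Prop where
  meas : Measurable V
  sq : ∀ R : ℝ, IntegrableOn (fun z => ‖V z‖ ^ 2) (ball (0 : ℂ) R)
  ray : ∀ w ∈ A, ∀ᵐ θ ∂(volume.restrict (Ioo (-π) π)), ∀ T : ℝ, ε ≤ T →
    ∫ t in ε..T, (V (w + (t : ℂ) * ue θ) * conj (ue θ)).re =
      u (w + (T : ℂ) * ue θ) - u (w + (ε : ℂ) * ue θ)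
  out : ∀ η : ℝ, 0 < η → ∀ᶠ R : ℝ in atTop, ∀ z : ℂ, ‖z‖ = R → Real.log R + γ - η ≤ u z
  inn : ∀ w ∈ A, ∀ θ : ℝ, u (w + (ε : ℂ) * ue θ) ≤ δ
  energy : ∀ η : ℝ, 0 < η → ∃ᶠ R : ℝ in atTop,
    ∫ z in ball (0 : ℂ) R, ‖V z‖ ^ 2 ≤ 2 * π * (Real.log R + γ) + η

/-- the smeared potential -/
def UU {N : ℕ} (ε : ℝ) (z : Fin N → ℂ) (x : ℂ) : ℝ := (N : ℝ)⁻¹ * ∑ j, hl ε (x - z j)

/-- its gradient -/
def VU {N : ℕ} (ε : ℝ) (z : Fin N → ℂ) (x : ℂ) : ℂ := ((N : ℝ)⁻¹ : ℝ) * ∑ j, hlg ε (x - z j)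

theorem measurable_VU {N : ℕ} (ε : ℝ) (z : Fin N → ℂ) : Measurable (VU ε z) := by
  unfold VU
  refine Measurable.const_mul ?_ _
  exact Finset.measurable_sum _ fun j _ => (measurable_hlg ε).comp (measurable_id.sub_const _)

theorem continuous_UU {N : ℕ} {ε : ℝ} (hε : 0 < ε) (z : Fin N → ℂ) : Continuous (UU ε z) := by
  unfold UU
  refine continuous_const.mul (continuous_finsetSum _ fun j _ => ?_)
  exact (continuous_hl hε).comp (continuous_id.sub continuous_const)

theorem norm_VU_le {N : ℕ} (hN : 0 < N) {ε : ℝ} (hε : 0 < ε) (z : Fin N → ℂ) (x : ℂ) :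
    ‖VU ε z x‖ ≤ ε⁻¹ := by
  unfold VU
  have hN' : (0 : ℝ) < N := by exact_mod_cast hN
  rw [norm_mul, norm_real, Real.norm_of_nonneg (by positivity)]
  have h1 : ‖∑ j, hlg ε (x - z j)‖ ≤ ∑ _j : Fin N, ε⁻¹ :=
    (norm_sum_le _ _).trans (Finset.sum_le_sum fun j _ => norm_hlg_le hε _)
  rw [Finset.sum_const, Finset.card_univ, Fintype.card_fin, nsmul_eq_mul] at h1
  calc (N : ℝ)⁻¹ * ‖∑ j, hlg ε (x - z j)‖ ≤ (N : ℝ)⁻¹ * (N * ε⁻¹) :=
        mul_le_mul_of_nonneg_left h1 (by positivity)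
    _ = ε⁻¹ := by field_simp

theorem sq_VU {N : ℕ} (hN : 0 < N) {ε : ℝ} (hε : 0 < ε) (z : Fin N → ℂ) (R : ℝ) :
    IntegrableOn (fun x => ‖VU ε z x‖ ^ 2) (ball (0 : ℂ) R) := by
  have hfin : IsFiniteMeasure (volume.restrict (ball (0 : ℂ) R)) := by
    constructor
    rw [Measure.restrict_apply_univ]
    exact measure_ball_lt_top
  refine (integrable_const (ε⁻¹ ^ 2)).mono' ?_ ?_
  · exact ((measurable_VU ε z).norm.pow_const 2).aestronglyMeasurable
  · refine Filter.Eventually.of_forall fun x => ?_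
    rw [Real.norm_of_nonneg (by positivity)]
    exact pow_le_pow_left₀ (norm_nonneg _) (norm_VU_le hN hε z x) 2

theorem ray_UU {N : ℕ} {ε : ℝ} (hε : 0 < ε) (z : Fin N → ℂ) (w : ℂ) (θ S T : ℝ) :
    ∫ t in S..T, (VU ε z (w + (t : ℂ) * ue θ) * conj (ue θ)).re =
      UU ε z (w + (T : ℂ) * ue θ) - UU ε z (w + (S : ℂ) * ue θ) := by
  have hi : ∀ j, IntervalIntegrable
      (fun t : ℝ => (hlg ε (w + (t : ℂ) * ue θ - z j) * conj (ue θ)).re) volume S T := by
    intro j
    have hm : Measurable (fun t : ℝ => (hlg ε (w + (t : ℂ) * ue θ - z j) * conj (ue θ)).re) := by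
      refine Complex.measurable_re.comp (Measurable.mul_const ?_ _)
      exact (measurable_hlg ε).comp (by fun_prop)
    refine (intervalIntegrable_const (c := ε⁻¹)).mono_fun' hm.aestronglyMeasurable ?_
    refine Filter.Eventually.of_forall fun t => ?_
    simp only
    rw [Real.norm_eq_abs]
    refine (abs_re_le_norm _).trans ?_
    rw [norm_mul, RCLike.norm_conj, norm_ue, mul_one]
    exact norm_hlg_le hε _
  have h1 : ∀ t : ℝ, (VU ε z (w + (t : ℂ) * ue θ) * conj (ue θ)).re =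
      (N : ℝ)⁻¹ * ∑ j, (hlg ε (w + (t : ℂ) * ue θ - z j) * conj (ue θ)).re := by
    intro t
    unfold VU
    rw [mul_assoc, re_ofReal_mul, Finset.sum_mul, re_sum]
  simp_rw [h1]
  rw [intervalIntegral.integral_const_mul, intervalIntegral.integral_finsetSum fun j _ => hi j]
  unfold UU
  rw [← mul_sub, ← Finset.sum_sub_distrib]
  congr 1
  refine Finset.sum_congr rfl fun j _ => ?_
  have h2 := ray_hl hε (w - z j) θ S T
  have h3 : ∀ t : ℝ, w + (t : ℂ) * ue θ - z j = w - z j + (t : ℂ) * ue θ := fun t => by ring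
  simp_rw [h3]
  exact h2

theorem integrable_mul_hlg {R ε : ℝ} (hε : 0 < ε) (w : ℂ) {V : ℂ → ℂ} (hV : Measurable V)
    (hV2 : IntegrableOn (fun z => ‖V z‖ ^ 2) (ball (0 : ℂ) R)) :
    IntegrableOn (fun z => (V z * conj (hlg ε (z - w))).re) (ball (0 : ℂ) R) := by
  have := integrable_ind hε w hV hV2
  rwa [integrable_indicator_iff measurableSet_ball] at this

theorem integral_mul_VU {N : ℕ} {R ε : ℝ} (hε : 0 < ε) (z : Fin N → ℂ) {V : ℂ → ℂ}
    (hV : Measurable V) (hV2 : IntegrableOn (fun z => ‖V z‖ ^ 2) (ball (0 : ℂ) R)) :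
    IntegrableOn (fun x => (V x * conj (VU ε z x)).re) (ball (0 : ℂ) R) ∧
    ∫ x in ball (0 : ℂ) R, (V x * conj (VU ε z x)).re =
      (N : ℝ)⁻¹ * ∑ j, ∫ x in ball (0 : ℂ) R, (V x * conj (hlg ε (x - z j))).re := by
  have h1 : ∀ x, (V x * conj (VU ε z x)).re =
      (N : ℝ)⁻¹ * ∑ j, (V x * conj (hlg ε (x - z j))).re := by
    intro x
    unfold VU
    rw [map_mul, conj_ofReal, map_sum, mul_left_comm, re_ofReal_mul, Finset.mul_sum, re_sum]
  simp_rw [h1]
  constructor
  · refine Integrable.const_mul ?_ _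
    exact integrable_finsetSum _ fun j _ => integrable_mul_hlg hε (z j) hV hV2
  · rw [integral_const_mul, integral_finsetSum _ fun j _ => integrable_mul_hlg hε (z j) hV hV2]

theorem hl_le {ε R M : ℝ} {x a : ℂ} (hx : ‖x‖ ≤ R) (ha : ‖a‖ ≤ M) (hε : 0 < ε)
    (hR : ε ≤ R + M) : hl ε (x - a) ≤ Real.log (R + M) := by
  unfold hl
  refine Real.log_le_log (lt_of_lt_of_le hε (le_max_right _ _)) (max_le ?_ hR)
  exact (norm_sub_le _ _).trans (add_le_add hx ha)

/-- energy of the smeared potential on `|z| < R` -/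
theorem energy_VU {N : ℕ} (hN : 0 < N) {R ε M : ℝ} (hε : 0 < ε) (z : Fin N → ℂ)
    (hM : ∀ j, ‖z j‖ ≤ M) (hR : M + ε < R) :
    ∫ x in ball (0 : ℂ) R, ‖VU ε z x‖ ^ 2 ≤ 2 * π * Real.log (R + M) -
      2 * π * ((N : ℝ)⁻¹ * ((N : ℝ)⁻¹ * ∑ i, ∑ j, Real.log (max ‖z i - z j‖ ε))) := by
  have hN' : (0 : ℝ) < N := by exact_mod_cast hN
  have hM0 : 0 ≤ M := (norm_nonneg _).trans (hM ⟨0, hN⟩)
  have hpi := Real.pi_pos
  have h1 : ∀ x, ‖VU ε z x‖ ^ 2 = (VU ε z x * conj (VU ε z x)).re := by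
    intro x
    rw [mul_conj, ofReal_re, Complex.sq_norm]
  simp_rw [h1]
  rw [(integral_mul_VU hε z (measurable_VU ε z) (sq_VU hN hε z R)).2]
  have h2 : ∀ i, ∫ x in ball (0 : ℂ) R, (VU ε z x * conj (hlg ε (x - z i))).re ≤
      2 * π * Real.log (R + M) - 2 * π * ((N : ℝ)⁻¹ * ∑ j, Real.log (max ‖z i - z j‖ ε)) := by
    intro i
    have hw : ‖z i‖ + ε < R := by
      have := hM i
      linarith
    rw [(cross hε hw (measurable_VU ε z) (sq_VU hN hε z R) (f := UU ε z)
      (Filter.Eventually.of_forall fun θ T _ => ray_UU hε z (z i) θ ε T)).2]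
    have hc1 : Continuous (fun θ => UU ε z (z i + (rho R (z i) θ : ℂ) * ue θ)) := by
      have := continuous_ue
      have h3 := continuous_rho R (z i)
      exact (continuous_UU hε z).comp (by fun_prop)
    have hc2 : Continuous (fun θ => UU ε z (z i + (ε : ℂ) * ue θ)) := by
      have := continuous_ue
      exact (continuous_UU hε z).comp (by fun_prop)
    have hi : ∀ {f : ℝ → ℝ}, Continuous f → IntegrableOn f (Ioo (-π) π) := fun hf =>
      (hf.integrableOn_Icc (a := -π) (b := π)).mono_set Ioo_subset_Icc_self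
    rw [integral_sub (hi hc1) (hi hc2)]
    have h4 : ∫ θ in Ioo (-π) π, UU ε z (z i + (rho R (z i) θ : ℂ) * ue θ) ≤
        2 * π * Real.log (R + M) := by
      have h5 : ∫ θ in Ioo (-π) π, UU ε z (z i + (rho R (z i) θ : ℂ) * ue θ) ≤
          ∫ _θ in Ioo (-π) π, Real.log (R + M) := by
        refine integral_mono (hi hc1) (hi continuous_const) fun θ => ?_
        simp only
        unfold UU
        have h6 : ∑ j, hl ε (z i + (rho R (z i) θ : ℂ) * ue θ - z j) ≤
            ∑ _j : Fin N, Real.log (R + M) := by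
          refine Finset.sum_le_sum fun j _ => ?_
          refine hl_le ?_ (hM j) hε (by linarith)
          rw [norm_rho (by linarith)]
        rw [Finset.sum_const, Finset.card_univ, Fintype.card_fin, nsmul_eq_mul] at h6
        calc (N : ℝ)⁻¹ * ∑ j, hl ε (z i + (rho R (z i) θ : ℂ) * ue θ - z j) ≤
            (N : ℝ)⁻¹ * (N * Real.log (R + M)) := mul_le_mul_of_nonneg_left h6 (by positivity)
          _ = Real.log (R + M) := by field_simp
      refine h5.trans (le_of_eq ?_)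
      rw [setIntegral_const, smul_eq_mul, Real.volume_real_Ioo_of_le (by linarith)]
      ring
    have h7 : 2 * π * ((N : ℝ)⁻¹ * ∑ j, Real.log (max ‖z i - z j‖ ε)) ≤
        ∫ θ in Ioo (-π) π, UU ε z (z i + (ε : ℂ) * ue θ) := by
      unfold UU
      have hcj : ∀ j, Continuous (fun θ => hl ε (z i + (ε : ℂ) * ue θ - z j)) := by
        intro j
        have := continuous_ue
        exact (continuous_hl hε).comp (by fun_prop)
      rw [integral_const_mul, integral_finsetSum _ fun j _ => hi (hcj j)]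
      rw [mul_left_comm, Finset.mul_sum]
      refine mul_le_mul_of_nonneg_left (Finset.sum_le_sum fun j _ => ?_) (by positivity)
      have h8 := mean_hl hε (z i - z j)
      have h9 : ∀ θ : ℝ, z i + (ε : ℂ) * ue θ - z j = z i - z j + (ε : ℂ) * ue θ := fun θ => by ring
      simp_rw [h9]
      exact h8
    linarith
  have h3 := Finset.sum_le_sum (s := Finset.univ) fun i (_ : i ∈ Finset.univ) => h2 i
  have h4 := mul_le_mul_of_nonneg_left h3 (show (0 : ℝ) ≤ (N : ℝ)⁻¹ by positivity)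
  refine h4.trans (le_of_eq ?_)
  rw [Finset.sum_sub_distrib, Finset.sum_const, Finset.card_univ, Fintype.card_fin, nsmul_eq_mul,
    ← Finset.mul_sum, ← Finset.mul_sum]
  field_simp

theorem TF.cross_ge {A : Set ℂ} {ε γ δ : ℝ} {u : ℂ → ℝ} {V : ℂ → ℂ} (h : TF A ε γ δ u V)
    (hε : 0 < ε) {R η : ℝ} {w : ℂ} (hw : w ∈ A) (hR : ‖w‖ + ε < R)
    (hout : ∀ z : ℂ, ‖z‖ = R → Real.log R + γ - η ≤ u z) :
    2 * π * (Real.log R + γ - η - δ) ≤
      ∫ z in ball (0 : ℂ) R, (V z * conj (hlg ε (z - w))).re := by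
  obtain ⟨h1, h2⟩ := cross hε hR h.meas (h.sq R) (h.ray w hw)
  rw [h2]
  have h3 : ∫ _θ in Ioo (-π) π, (Real.log R + γ - η - δ) ≤
      ∫ θ in Ioo (-π) π, (u (w + (rho R w θ : ℂ) * ue θ) - u (w + (ε : ℂ) * ue θ)) := by
    refine integral_mono ?_ h1 fun θ => ?_
    · exact integrableOn_const (by
        rw [Real.volume_Ioo]
        exact ENNReal.ofReal_ne_top)
    · have h4 := hout _ (norm_rho (show ‖w‖ < R by linarith) θ)
      have h5 := h.inn w hw θ
      simp only
      linarith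
  refine (le_of_eq ?_).trans h3
  rw [setIntegral_const, smul_eq_mul, Real.volume_real_Ioo_of_le (by linarith [Real.pi_pos])]
  ring

theorem TF.sum_le {A : Set ℂ} {ε γ δ : ℝ} {u : ℂ → ℝ} {V : ℂ → ℂ} (h : TF A ε γ δ u V)
    (hε : 0 < ε) (hA : Bornology.IsBounded A) {N : ℕ} (hN : 0 < N) (z : Fin N → ℂ)
    (hz : ∀ i, z i ∈ A) :
    ∑ i, ∑ j, Real.log (max ‖z i - z j‖ ε) ≤ (N : ℝ) ^ 2 * (-γ + 2 * δ) := by
  have hN' : (0 : ℝ) < N := by exact_mod_cast hN
  have hpi := Real.pi_pos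
  obtain ⟨M, hM⟩ := hA.exists_norm_le
  have hMz : ∀ j, ‖z j‖ ≤ M := fun j => hM _ (hz j)
  have hM0 : 0 ≤ M := (norm_nonneg _).trans (hMz ⟨0, hN⟩)
  have key : ∀ η : ℝ, 0 < η →
      (N : ℝ)⁻¹ * ((N : ℝ)⁻¹ * ∑ i, ∑ j, Real.log (max ‖z i - z j‖ ε)) ≤ -γ + 2 * δ + 4 * η := by
    intro η hη
    have hlog : ∀ᶠ R : ℝ in atTop, Real.log (R + M) ≤ Real.log R + η := by
      have h1 : Tendsto (fun R : ℝ => Real.log (R + M) - Real.log R) atTop (nhds 0) := by
        have h2 : Tendsto (fun R : ℝ => Real.log (1 + M / R)) atTop (nhds 0) := by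
          have h3 : Tendsto (fun R : ℝ => 1 + M / R) atTop (nhds 1) := by
            have := (tendsto_const_nhds (x := M)).div_atTop tendsto_id (α := ℝ)
            simpa using this.const_add 1
          have h4 := h3.log one_ne_zero
          rwa [Real.log_one] at h4
        refine h2.congr' ?_
        filter_upwards [eventually_gt_atTop 0] with R hR
        rw [← Real.log_div (by positivity) hR.ne']
        congr 1
        field_simp
      filter_upwards [h1.eventually (gt_mem_nhds hη)] with R hR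
      linarith
    obtain ⟨R, hE, hout, hl, hRb⟩ := ((h.energy η hη).and_eventually
      ((h.out η hη).and (hlog.and (eventually_gt_atTop (M + ε))))).exists
    have hMR : ∀ j, ‖z j‖ + ε < R := fun j => by
      have := hMz j
      linarith
    have e1 := energy_VU hN hε z hMz hRb
    have e2 := integral_mul_VU hε z h.meas (h.sq R)
    have e3 : 2 * π * (Real.log R + γ - η - δ) ≤
        ∫ x in ball (0 : ℂ) R, (V x * conj (VU ε z x)).re := by
      rw [e2.2]
      have h5 : ∑ _j : Fin N, 2 * π * (Real.log R + γ - η - δ) ≤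
          ∑ j, ∫ x in ball (0 : ℂ) R, (V x * conj (hlg ε (x - z j))).re :=
        Finset.sum_le_sum fun j _ => h.cross_ge hε (hz j) (hMR j) hout
      rw [Finset.sum_const, Finset.card_univ, Fintype.card_fin, nsmul_eq_mul] at h5
      calc 2 * π * (Real.log R + γ - η - δ) =
          (N : ℝ)⁻¹ * (N * (2 * π * (Real.log R + γ - η - δ))) := by field_simp
        _ ≤ _ := mul_le_mul_of_nonneg_left h5 (by positivity)
    have e4 : 0 ≤ ∫ x in ball (0 : ℂ) R,
        (‖V x‖ ^ 2 - 2 * (V x * conj (VU ε z x)).re + ‖VU ε z x‖ ^ 2) := by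
      refine integral_nonneg fun x => ?_
      simp only [Pi.zero_apply]
      have h6 : (V x * conj (VU ε z x)).re ≤ ‖V x‖ * ‖VU ε z x‖ := by
        refine (re_le_norm _).trans ?_
        rw [norm_mul, RCLike.norm_conj]
      nlinarith [sq_nonneg (‖V x‖ - ‖VU ε z x‖)]
    have e5 : IntegrableOn (fun x => ‖V x‖ ^ 2 - 2 * (V x * conj (VU ε z x)).re)
        (ball (0 : ℂ) R) := (h.sq R).sub (e2.1.const_mul 2)
    rw [integral_add e5 (sq_VU hN hε z R), integral_sub (h.sq R) (e2.1.const_mul 2),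
      integral_const_mul] at e4
    set S := (N : ℝ)⁻¹ * ((N : ℝ)⁻¹ * ∑ i, ∑ j, Real.log (max ‖z i - z j‖ ε)) with hS
    have h7 : 2 * π * S ≤ 2 * π * (-γ + 2 * δ + 3 * η) + η := by nlinarith
    have h8 : 1 ≤ 2 * π := by
      have := Real.pi_gt_three
      linarith
    have h9 : 2 * π * S ≤ 2 * π * (-γ + 2 * δ + 4 * η) := by nlinarith
    exact le_of_mul_le_mul_left h9 (by positivity)
  have h1 : (N : ℝ)⁻¹ * ((N : ℝ)⁻¹ * ∑ i, ∑ j, Real.log (max ‖z i - z j‖ ε)) ≤ -γ + 2 * δ := by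
    refine le_of_forall_pos_le_add fun η hη => ?_
    have := key (η / 4) (by positivity)
    linarith
  have h2 := mul_le_mul_of_nonneg_left h1 (show (0 : ℝ) ≤ (N : ℝ) ^ 2 by positivity)
  refine (le_of_eq ?_).trans h2
  field_simp

theorem log_det_sq {N : ℕ} (z : Fin N → ℂ) (hinj : Function.Injective z) :
    2 * Real.log ‖(Matrix.vandermonde z).det‖ =
      ∑ i, ∑ j, (if i = j then 0 else Real.log ‖z i - z j‖) := by
  have h0 : ∀ i j, i ≠ j → z j - z i ≠ 0 := fun i j hij h =>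
    hij (hinj (sub_eq_zero.1 h)).symm
  have h1 : Real.log ‖(Matrix.vandermonde z).det‖ = ∑ i, ∑ j ∈ Finset.Ioi i, Real.log ‖z i - z j‖ := by
    rw [Matrix.det_vandermonde, norm_prod, Real.log_prod]
    · refine Finset.sum_congr rfl fun i _ => ?_
      rw [norm_prod, Real.log_prod]
      · refine Finset.sum_congr rfl fun j _ => ?_
        rw [norm_sub_rev]
      · intro j hj
        exact norm_ne_zero_iff.2 (h0 i j (ne_of_lt (Finset.mem_Ioi.1 hj)))
    · intro i _
      rw [norm_ne_zero_iff, Finset.prod_ne_zero_iff]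
      intro j hj
      exact h0 i j (ne_of_lt (Finset.mem_Ioi.1 hj))
  have h2 : ∑ i, ∑ j, (if i = j then 0 else Real.log ‖z i - z j‖) =
      ∑ i, ∑ j ∈ Finset.Ioi i, Real.log ‖z i - z j‖ + ∑ i, ∑ j ∈ Finset.Iio i, Real.log ‖z i - z j‖ := by
    rw [← Finset.sum_add_distrib]
    refine Finset.sum_congr rfl fun i _ => ?_
    have h3 : (Finset.univ : Finset (Fin N)) = Finset.Ioi i ∪ (Finset.Iio i ∪ {i}) := by
      ext j
      simp only [Finset.mem_univ, Finset.mem_union, Finset.mem_Ioi, Finset.mem_Iio,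
        Finset.mem_singleton, true_iff]
      rcases lt_trichotomy i j with h | h | h
      · exact Or.inl h
      · exact Or.inr (Or.inr h.symm)
      · exact Or.inr (Or.inl h)
    have hd1 : Disjoint (Finset.Iio i) ({i} : Finset (Fin N)) := by
      rw [Finset.disjoint_singleton_right]
      simp
    have hd2 : Disjoint (Finset.Ioi i) (Finset.Iio i ∪ {i}) := by
      rw [Finset.disjoint_left]
      intro j hj hj'
      rw [Finset.mem_Ioi] at hj
      rcases Finset.mem_union.1 hj' with h | h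
      · exact absurd hj (not_lt.2 (Finset.mem_Iio.1 h).le)
      · rw [Finset.mem_singleton.1 h] at hj
        exact lt_irrefl _ hj
    rw [h3, Finset.sum_union hd2, Finset.sum_union hd1, Finset.sum_singleton, if_pos rfl, add_zero]
    congr 1
    · refine Finset.sum_congr rfl fun j hj => ?_
      rw [if_neg (ne_of_lt (Finset.mem_Ioi.1 hj))]
    · refine Finset.sum_congr rfl fun j hj => ?_
      rw [if_neg (ne_of_gt (Finset.mem_Iio.1 hj))]
  have h4 : ∑ i, ∑ j ∈ Finset.Iio i, Real.log ‖z i - z j‖ =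
      ∑ i, ∑ j ∈ Finset.Ioi i, Real.log ‖z i - z j‖ := by
    rw [Finset.sum_comm' (s' := fun j => Finset.Ioi j) (t' := Finset.univ)]
    · refine Finset.sum_congr rfl fun i _ => Finset.sum_congr rfl fun j _ => ?_
      rw [norm_sub_rev]
    · intro i j
      simp
  rw [h2, h4, ← h1]
  ring

/-- the Dirichlet principle against Vandermonde products -/
theorem TF.vandermonde {A : Set ℂ} {ε γ δ : ℝ} {u : ℂ → ℝ} {V : ℂ → ℂ} (h : TF A ε γ δ u V)
    (hε : 0 < ε) (hA : Bornology.IsBounded A) {N : ℕ} (hN : 0 < N) (z : Fin N → ℂ)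
    (hz : ∀ i, z i ∈ A) :
    ‖(Matrix.vandermonde z).det‖ ^ 2 ≤ Real.exp ((N : ℝ) ^ 2 * (-γ + 2 * δ)) * (ε⁻¹) ^ N := by
  by_cases hinj : Function.Injective z
  · have h1 := h.sum_le hε hA hN z hz
    have h2 := log_det_sq z hinj
    have h3 : ∑ i, ∑ j, (if i = j then 0 else Real.log ‖z i - z j‖) ≤
        ∑ i, ∑ j, Real.log (max ‖z i - z j‖ ε) - N * Real.log ε := by
      have h4 : (N : ℝ) * Real.log ε = ∑ i : Fin N, ∑ j, (if i = j then Real.log ε else 0) := by
        simp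
      rw [h4, ← Finset.sum_sub_distrib]
      refine Finset.sum_le_sum fun i _ => ?_
      rw [← Finset.sum_sub_distrib]
      refine Finset.sum_le_sum fun j _ => ?_
      by_cases hij : i = j
      · rw [if_pos hij, if_pos hij, hij, sub_self, norm_zero, max_eq_right hε.le, sub_self]
      · rw [if_neg hij, if_neg hij, sub_zero]
        refine Real.log_le_log ?_ (le_max_left _ _)
        exact norm_pos_iff.2 (sub_ne_zero.2 fun hh => hij (hinj hh))
    have hdet : 0 < ‖(Matrix.vandermonde z).det‖ := by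
      rw [norm_pos_iff]
      exact Matrix.det_vandermonde_ne_zero_iff.2 hinj
    rw [← Real.log_le_log_iff (by positivity) (by positivity), Real.log_pow,
      Real.log_mul (Real.exp_pos _).ne' (by positivity), Real.log_exp, Real.log_pow, Real.log_inv]
    push_cast
    linarith
  · have h1 : (Matrix.vandermonde z).det = 0 := by
      by_contra hne
      exact hinj (Matrix.det_vandermonde_ne_zero_iff.1 hne)
    rw [h1, norm_zero, zero_pow two_ne_zero]
    positivity

end Pool.Agent.H57.EH
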