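import Mathlib

/-!
# EH-V1: gradients against logarithmic potentials by rays

`ue θ = e^{iθ}`, `hl ε z = log max(‖z‖, ε)`, `hlg ε` its gradient (as a complex number), `rho R w θ` the distance from `w` to
the circle `|z| = R` in direction `ue θ`.

`cross`: for a function `f` with gradient field `V` (in the sense of the fundamental theorem of calculus on almost every ray
starting in `w`), `∫_{|z|<R} V · grad hl ε (z - w) = ∫_{-π}^{π} (f (w + rho ue) - f (w + ε ue)) dθ`. Polar coordinates around `w`.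
-/

set_option autoImplicit false

open MeasureTheory Set Complex Metric
open scoped Real ComplexConjugate ENNReal

noncomputable section

namespace Pool.Agent.H57.EH

/-- the unit vector `e^{iθ}` -/
def ue (θ : ℝ) : ℂ := (Real.cos θ : ℂ) + (Real.sin θ : ℂ) * I

/-- `log max(‖z‖, ε)` -/
def hl (ε : ℝ) (z : ℂ) : ℝ := Real.log (max ‖z‖ ε)

/-- the gradient of `hl ε` -/
def hlg (ε : ℝ) (z : ℂ) : ℂ := if ε < ‖z‖ then z / ((‖z‖ ^ 2 : ℝ) : ℂ) else 0

/-- distance from `w` to the circle `|z| = R` in direction `ue θ` -/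
def rho (R : ℝ) (w : ℂ) (θ : ℝ) : ℝ :=
  -(w * conj (ue θ)).re + √((w * conj (ue θ)).re ^ 2 + (R ^ 2 - ‖w‖ ^ 2))

theorem continuous_ue : Continuous ue := by
  unfold ue
  fun_prop

theorem normSq_ue (θ : ℝ) : normSq (ue θ) = 1 := by
  have h1 : (ue θ).re = Real.cos θ := by
    simp only [ue, add_re, mul_re, ofReal_re, ofReal_im, I_re, I_im, mul_zero, zero_mul, sub_zero,
      add_zero]
  have h2 : (ue θ).im = Real.sin θ := by
    simp only [ue, add_im, mul_im, ofReal_re, ofReal_im, I_re, I_im, mul_zero, mul_one, zero_add,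
      add_zero]
  rw [normSq_apply, h1, h2]
  nlinarith [Real.sin_sq_add_cos_sq θ]

theorem norm_ue (θ : ℝ) : ‖ue θ‖ = 1 := by
  rw [Complex.norm_def, normSq_ue, Real.sqrt_one]

theorem ue_mul_conj (θ : ℝ) : ue θ * conj (ue θ) = 1 := by
  rw [mul_conj, normSq_ue, ofReal_one]

/-- `‖w + t e‖² = ‖w‖² + 2 t Re(w ē) + t²` -/
theorem norm_add_sq (w : ℂ) (t θ : ℝ) :
    ‖w + (t : ℂ) * ue θ‖ ^ 2 = ‖w‖ ^ 2 + 2 * t * (w * conj (ue θ)).re + t ^ 2 := by
  have h1 : w + (t : ℂ) * ue θ = (w * conj (ue θ) + t) * ue θ := by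
    have := ue_mul_conj θ
    rw [add_mul, mul_assoc, mul_comm (conj (ue θ)), this, mul_one]
  have h2 : ‖w‖ ^ 2 = ‖w * conj (ue θ)‖ ^ 2 := by
    rw [norm_mul, RCLike.norm_conj, norm_ue, mul_one]
  rw [h1, norm_mul, norm_ue, mul_one, h2, Complex.sq_norm, Complex.sq_norm, normSq_apply,
    normSq_apply]
  simp
  ring

theorem norm_lt_iff {R : ℝ} {w : ℂ} (hw : ‖w‖ < R) {t : ℝ} (ht : 0 ≤ t) (θ : ℝ) :
    ‖w + (t : ℂ) * ue θ‖ < R ↔ t < rho R w θ := by
  have hR : 0 < R := lt_of_le_of_lt (norm_nonneg _) hw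
  set b := (w * conj (ue θ)).re with hb
  have hpos : 0 < R ^ 2 - ‖w‖ ^ 2 := by nlinarith [norm_nonneg w]
  have h1 : ‖w + (t : ℂ) * ue θ‖ < R ↔ ‖w + (t : ℂ) * ue θ‖ ^ 2 < R ^ 2 := by
    rw [sq_lt_sq₀ (norm_nonneg _) hR.le]
  rw [h1, norm_add_sq, ← hb]
  unfold rho
  rw [← hb]
  have hs : √(b ^ 2 + (R ^ 2 - ‖w‖ ^ 2)) ^ 2 = b ^ 2 + (R ^ 2 - ‖w‖ ^ 2) :=
    Real.sq_sqrt (by positivity)
  have hs0 : 0 < √(b ^ 2 + (R ^ 2 - ‖w‖ ^ 2)) := Real.sqrt_pos.2 (by positivity)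
  have hsb : |b| < √(b ^ 2 + (R ^ 2 - ‖w‖ ^ 2)) := by
    rw [← sq_lt_sq₀ (abs_nonneg b) hs0.le, hs, sq_abs]
    linarith
  have h3 := abs_lt.1 hsb
  constructor
  · intro h
    by_contra hcon
    push Not at hcon
    nlinarith
  · intro h
    nlinarith

theorem norm_rho {R : ℝ} {w : ℂ} (hw : ‖w‖ < R) (θ : ℝ) :
    ‖w + (rho R w θ : ℂ) * ue θ‖ = R := by
  have hR : 0 < R := lt_of_le_of_lt (norm_nonneg _) hw
  have hpos : 0 < R ^ 2 - ‖w‖ ^ 2 := by nlinarith [norm_nonneg w]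
  have h1 : ‖w + (rho R w θ : ℂ) * ue θ‖ ^ 2 = R ^ 2 := by
    rw [norm_add_sq]
    unfold rho
    set b := (w * conj (ue θ)).re with hb
    have hs : √(b ^ 2 + (R ^ 2 - ‖w‖ ^ 2)) ^ 2 = b ^ 2 + (R ^ 2 - ‖w‖ ^ 2) :=
      Real.sq_sqrt (by positivity)
    nlinarith
  exact (sq_eq_sq₀ (norm_nonneg _) hR.le).1 h1

theorem lt_rho {R ε : ℝ} {w : ℂ} (hε : 0 ≤ ε) (hw : ‖w‖ + ε < R) (θ : ℝ) : ε < rho R w θ := by
  rw [← norm_lt_iff (by linarith) hε]
  refine lt_of_le_of_lt (norm_add_le _ _) ?_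
  rw [norm_mul, norm_ue, mul_one, norm_real, Real.norm_of_nonneg hε]
  exact hw

theorem continuous_rho (R : ℝ) (w : ℂ) : Continuous (rho R w) := by
  unfold rho
  have := continuous_ue
  fun_prop

theorem norm_hlg_le {ε : ℝ} (hε : 0 < ε) (z : ℂ) : ‖hlg ε z‖ ≤ ε⁻¹ := by
  unfold hlg
  split_ifs with h
  · have h0 : 0 < ‖z‖ := hε.trans h
    rw [norm_div, norm_real, Real.norm_of_nonneg (by positivity), pow_two, ← div_div,
      div_self h0.ne', one_div]
    exact inv_anti₀ hε h.le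
  · rw [norm_zero]
    positivity

theorem measurable_hlg (ε : ℝ) : Measurable (hlg ε) := by
  unfold hlg
  refine Measurable.ite (measurableSet_lt measurable_const measurable_norm) ?_ measurable_const
  fun_prop

theorem continuous_hl {ε : ℝ} (hε : 0 < ε) : Continuous (hl ε) := by
  unfold hl
  refine Continuous.log (by fun_prop) ?_
  intro z
  have : ε ≤ max ‖z‖ ε := le_max_right _ _
  linarith

theorem polar_eq (p : ℝ × ℝ) : Complex.polarCoord.symm p = (p.1 : ℂ) * ue p.2 := by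
  rw [Complex.polarCoord_symm_apply]
  rfl

/-- the integrand in polar coordinates -/
def hcr (R ε : ℝ) (w : ℂ) (V : ℂ → ℂ) (p : ℝ × ℝ) : ℝ :=
  if ‖w + (p.1 : ℂ) * ue p.2‖ < R ∧ ε < p.1 then
    (V (w + (p.1 : ℂ) * ue p.2) * conj (ue p.2)).re else 0

theorem measurable_hcr (R ε : ℝ) (w : ℂ) {V : ℂ → ℂ} (hV : Measurable V) :
    Measurable (hcr R ε w V) := by
  unfold hcr
  have hc : Measurable (fun p : ℝ × ℝ => w + (p.1 : ℂ) * ue p.2) := by
    have := continuous_ue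
    fun_prop
  have hu : Measurable (fun p : ℝ × ℝ => conj (ue p.2)) := by
    have := continuous_ue
    fun_prop
  refine Measurable.ite ?_ ?_ measurable_const
  · exact (measurableSet_lt hc.norm measurable_const).inter
      (measurableSet_lt measurable_const measurable_fst)
  · exact Complex.measurable_re.comp ((hV.comp hc).mul hu)

theorem hcr_eq (R ε : ℝ) (w : ℂ) (V : ℂ → ℂ) (p : ℝ × ℝ) (hp : 0 < p.1) :
    p.1 • ((ball (0 : ℂ) R).indicator (fun z => (V z * conj (hlg ε (z - w))).re)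
      (w + Complex.polarCoord.symm p)) = hcr R ε w V p := by
  classical
  rw [polar_eq]
  unfold hcr
  rw [indicator_apply, mem_ball_zero_iff]
  have hn : ‖(p.1 : ℂ) * ue p.2‖ = p.1 := by
    rw [norm_mul, norm_ue, mul_one, norm_real, Real.norm_of_nonneg hp.le]
  by_cases h1 : ‖w + (p.1 : ℂ) * ue p.2‖ < R
  · by_cases h2 : ε < p.1
    · rw [if_pos h1, if_pos ⟨h1, h2⟩, add_sub_cancel_left]
      unfold hlg
      rw [if_pos (by rw [hn]; exact h2), hn]
      have h3 : ((p.1 : ℂ) * ue p.2) / ((p.1 ^ 2 : ℝ) : ℂ) = ((p.1⁻¹ : ℝ) : ℂ) * ue p.2 := by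
        push_cast
        have : (p.1 : ℂ) ≠ 0 := by exact_mod_cast hp.ne'
        field_simp
      rw [h3, map_mul, conj_ofReal]
      have h4 : V (w + (p.1 : ℂ) * ue p.2) * (((p.1⁻¹ : ℝ) : ℂ) * conj (ue p.2)) =
          ((p.1⁻¹ : ℝ) : ℂ) * (V (w + (p.1 : ℂ) * ue p.2) * conj (ue p.2)) := by ring
      rw [h4, re_ofReal_mul, smul_eq_mul, ← mul_assoc, mul_inv_cancel₀ hp.ne', one_mul]
    · rw [if_pos h1, if_neg (fun h => h2 h.2), add_sub_cancel_left]
      unfold hlg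
      rw [if_neg (by rw [hn]; exact h2)]
      simp
  · rw [if_neg h1, if_neg (fun h => h1 h.1), smul_zero]

theorem integrable_ind {R ε : ℝ} (hε : 0 < ε) (w : ℂ) {V : ℂ → ℂ} (hV : Measurable V)
    (hV2 : IntegrableOn (fun z => ‖V z‖ ^ 2) (ball (0 : ℂ) R)) :
    Integrable ((ball (0 : ℂ) R).indicator (fun z => (V z * conj (hlg ε (z - w))).re)) := by
  rw [integrable_indicator_iff measurableSet_ball]
  have hfin : IsFiniteMeasure (volume.restrict (ball (0 : ℂ) R)) := by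
    constructor
    rw [Measure.restrict_apply_univ]
    exact measure_ball_lt_top
  have h1 : Integrable (fun z => ε⁻¹ * (1 + ‖V z‖ ^ 2)) (volume.restrict (ball (0 : ℂ) R)) :=
    ((integrable_const (1 : ℝ)).add hV2).const_mul _
  refine h1.mono' ?_ ?_
  · refine Measurable.aestronglyMeasurable ?_
    refine Complex.measurable_re.comp (hV.mul ?_)
    exact (Complex.continuous_conj.measurable).comp
      ((measurable_hlg ε).comp (measurable_id.sub_const w))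
  · refine Filter.Eventually.of_forall fun z => ?_
    rw [Real.norm_eq_abs]
    refine (abs_re_le_norm _).trans ?_
    rw [norm_mul, RCLike.norm_conj]
    have h2 := norm_hlg_le hε (z - w)
    have h3 : ‖V z‖ ≤ 1 + ‖V z‖ ^ 2 := by nlinarith [norm_nonneg (V z), sq_nonneg (‖V z‖ - 1)]
    calc ‖V z‖ * ‖hlg ε (z - w)‖ ≤ (1 + ‖V z‖ ^ 2) * ε⁻¹ :=
          mul_le_mul h3 h2 (norm_nonneg _) (by positivity)
      _ = ε⁻¹ * (1 + ‖V z‖ ^ 2) := mul_comm _ _

theorem integrableOn_hcr {R ε : ℝ} (hε : 0 < ε) (w : ℂ) {V : ℂ → ℂ} (hV : Measurable V)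
    (hV2 : IntegrableOn (fun z => ‖V z‖ ^ 2) (ball (0 : ℂ) R)) :
    IntegrableOn (hcr R ε w V) (Ioi (0 : ℝ) ×ˢ Ioo (-π) π) := by
  have h0 := integrable_ind hε w hV hV2 (R := R)
  set g := (ball (0 : ℂ) R).indicator (fun z => (V z * conj (hlg ε (z - w))).re) with hg
  have h1 : Integrable (fun ζ => g (w + ζ)) := h0.comp_add_left w
  refine ⟨(measurable_hcr R ε w hV).aestronglyMeasurable, ?_⟩
  have h2 := h1.2
  unfold HasFiniteIntegral at h2 ⊢
  refine lt_of_eq_of_lt ?_ h2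
  rw [← Complex.lintegral_comp_polarCoord_symm]
  have h3 : polarCoord.target = Ioi (0 : ℝ) ×ˢ Ioo (-π) π := rfl
  rw [h3]
  refine setLIntegral_congr_fun (measurableSet_Ioi.prod measurableSet_Ioo) ?_
  intro p hp
  have hp0 : 0 < p.1 := hp.1
  have h4 := hcr_eq R ε w V p hp0
  rw [← hg] at h4
  simp only
  rw [← h4, enorm_smul, smul_eq_mul]
  congr 1
  rw [Real.enorm_eq_ofReal hp0.le]

theorem integral_eq_hcr (R ε : ℝ) (w : ℂ) (V : ℂ → ℂ) :
    ∫ z in ball (0 : ℂ) R, (V z * conj (hlg ε (z - w))).re =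
      ∫ p in Ioi (0 : ℝ) ×ˢ Ioo (-π) π, hcr R ε w V p := by
  rw [← integral_indicator measurableSet_ball]
  set g := (ball (0 : ℂ) R).indicator (fun z => (V z * conj (hlg ε (z - w))).re) with hg
  rw [← integral_add_left_eq_self g w, ← Complex.integral_comp_polarCoord_symm]
  have h3 : polarCoord.target = Ioi (0 : ℝ) ×ˢ Ioo (-π) π := rfl
  rw [h3]
  refine setIntegral_congr_fun (measurableSet_Ioi.prod measurableSet_Ioo) ?_
  intro p hp
  exact hcr_eq R ε w V p hp.1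

theorem inner_hcr {R ε : ℝ} (hε : 0 < ε) {w : ℂ} (hw : ‖w‖ + ε < R) (V : ℂ → ℂ) (θ : ℝ) :
    ∫ t in Ioi (0 : ℝ), hcr R ε w V (t, θ) =
      ∫ t in ε..(rho R w θ), (V (w + (t : ℂ) * ue θ) * conj (ue θ)).re := by
  have hlt := lt_rho hε.le hw θ
  rw [intervalIntegral.integral_of_le hlt.le, integral_Ioc_eq_integral_Ioo]
  rw [← integral_indicator measurableSet_Ioi, ← integral_indicator measurableSet_Ioo]
  congr 1
  ext t
  by_cases ht : t ∈ Ioo ε (rho R w θ)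
  · have ht0 : 0 < t := hε.trans ht.1
    rw [indicator_of_mem ht, indicator_of_mem (show t ∈ Ioi (0:ℝ) from ht0)]
    unfold hcr
    rw [if_pos ⟨(norm_lt_iff (by linarith) ht0.le θ).2 ht.2, ht.1⟩]
  · rw [indicator_of_notMem ht]
    by_cases ht0 : t ∈ Ioi (0:ℝ)
    · rw [indicator_of_mem ht0]
      unfold hcr
      rw [if_neg]
      rintro ⟨h1, h2⟩
      exact ht ⟨h2, (norm_lt_iff (by linarith) (le_of_lt ht0) θ).1 h1⟩
    · rw [indicator_of_notMem ht0]

/-- `∫_{|z|<R} V · grad hl ε (z - w)` by rays -/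
theorem cross {R ε : ℝ} (hε : 0 < ε) {w : ℂ} (hw : ‖w‖ + ε < R) {f : ℂ → ℝ} {V : ℂ → ℂ}
    (hV : Measurable V) (hV2 : IntegrableOn (fun z => ‖V z‖ ^ 2) (ball (0 : ℂ) R))
    (hray : ∀ᵐ θ ∂(volume.restrict (Ioo (-π) π)), ∀ T, ε ≤ T →
      ∫ t in ε..T, (V (w + (t : ℂ) * ue θ) * conj (ue θ)).re =
        f (w + (T : ℂ) * ue θ) - f (w + (ε : ℂ) * ue θ)) :
    IntegrableOn (fun θ => f (w + (rho R w θ : ℂ) * ue θ) - f (w + (ε : ℂ) * ue θ)) (Ioo (-π) π) ∧
    ∫ z in ball (0 : ℂ) R, (V z * conj (hlg ε (z - w))).re =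
      ∫ θ in Ioo (-π) π, (f (w + (rho R w θ : ℂ) * ue θ) - f (w + (ε : ℂ) * ue θ)) := by
  have h1 := integrableOn_hcr hε w hV hV2
  have hae : ∀ᵐ θ ∂(volume.restrict (Ioo (-π) π)),
      ∫ t in Ioi (0 : ℝ), hcr R ε w V (t, θ) =
        f (w + (rho R w θ : ℂ) * ue θ) - f (w + (ε : ℂ) * ue θ) := by
    filter_upwards [hray] with θ hθ
    rw [inner_hcr hε hw, hθ _ (lt_rho hε.le hw θ).le]
  have h1' : Integrable (hcr R ε w V)
      ((volume.restrict (Ioi (0 : ℝ))).prod (volume.restrict (Ioo (-π) π))) := by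
    rw [Measure.prod_restrict]
    exact h1
  constructor
  · have h2 := h1'.integral_prod_right
    exact h2.congr hae
  · rw [integral_eq_hcr, Measure.volume_eq_prod, ← Measure.prod_restrict, integral_prod_symm _ h1']
    exact integral_congr_ae hae

end Pool.Agent.H57.EH
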