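import Pool.Agent.H57.EH.V1

/-!
# EH-V2: the smeared logarithmic potential along rays

`ray_hl`: `hl ε (· - a)` satisfies the fundamental theorem of calculus on every ray with gradient `hlg ε (· - a)`.
`mean_hl`: `∫_{-π}^{π} hl ε (b + ε ue θ) dθ ≥ 2π log max(‖b‖, ε)`.
-/

set_option autoImplicit false

open MeasureTheory Set Complex Metric
open scoped Real ComplexConjugate ENNReal

noncomputable section

namespace Pool.Agent.H57.EH

theorem hasDerivAt_sq (b : ℂ) (t θ : ℝ) :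
    HasDerivAt (fun t : ℝ => ‖b‖ ^ 2 + 2 * t * (b * conj (ue θ)).re + t ^ 2)
      (2 * (b * conj (ue θ)).re + 2 * t) t := by
  have h1 : HasDerivAt (fun t : ℝ => 2 * t * (b * conj (ue θ)).re) (2 * (b * conj (ue θ)).re) t := by
    have := ((hasDerivAt_id t).const_mul 2).mul_const (b * conj (ue θ)).re
    simpa using this
  have h2 : HasDerivAt (fun t : ℝ => t ^ 2) (2 * t) t := by
    simpa using hasDerivAt_pow 2 t
  exact (h1.const_add (‖b‖ ^ 2)).add h2

theorem re_hlg {ε : ℝ} {b : ℂ} {t θ : ℝ} (h : ε < ‖b + (t : ℂ) * ue θ‖) :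
    (hlg ε (b + (t : ℂ) * ue θ) * conj (ue θ)).re =
      ((b * conj (ue θ)).re + t) / ‖b + (t : ℂ) * ue θ‖ ^ 2 := by
  unfold hlg
  rw [if_pos h]
  have h1 : (b + (t : ℂ) * ue θ) / ((‖b + (t : ℂ) * ue θ‖ ^ 2 : ℝ) : ℂ) * conj (ue θ) =
      ((‖b + (t : ℂ) * ue θ‖ ^ 2 : ℝ)⁻¹ : ℝ) * (b * conj (ue θ) + t) := by
    have := ue_mul_conj θ
    rw [div_mul_eq_mul_div, add_mul, mul_assoc (t : ℂ), this, mul_one, div_eq_inv_mul]
    push_cast
    ring
  rw [h1, re_ofReal_mul, add_re, ofReal_re]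
  rw [div_eq_inv_mul]

theorem hasDerivAt_hl_out {ε : ℝ} (hε : 0 < ε) {b : ℂ} {t θ : ℝ}
    (h : ε < ‖b + (t : ℂ) * ue θ‖) :
    HasDerivAt (fun t : ℝ => hl ε (b + (t : ℂ) * ue θ))
      ((hlg ε (b + (t : ℂ) * ue θ) * conj (ue θ)).re) t := by
  have h0 : 0 < ‖b + (t : ℂ) * ue θ‖ := hε.trans h
  have h1 : HasDerivAt (fun t : ℝ => (1 / 2) * Real.log (‖b‖ ^ 2 + 2 * t * (b * conj (ue θ)).re + t ^ 2))
      ((1 / 2) * ((2 * (b * conj (ue θ)).re + 2 * t) /
        (‖b‖ ^ 2 + 2 * t * (b * conj (ue θ)).re + t ^ 2))) t := by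
    refine ((hasDerivAt_sq b t θ).log ?_).const_mul _
    rw [← norm_add_sq]
    positivity
  rw [re_hlg h, norm_add_sq]
  have h2 : (1 / 2) * ((2 * (b * conj (ue θ)).re + 2 * t) /
        (‖b‖ ^ 2 + 2 * t * (b * conj (ue θ)).re + t ^ 2)) = ((b * conj (ue θ)).re + t) /
          (‖b‖ ^ 2 + 2 * t * (b * conj (ue θ)).re + t ^ 2) := by ring
  rw [h2] at h1
  refine h1.congr_of_eventuallyEq ?_
  have hc : Continuous (fun t : ℝ => ‖b + (t : ℂ) * ue θ‖) := by fun_prop
  filter_upwards [hc.continuousAt.eventually (lt_mem_nhds h)] with s hs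
  unfold hl
  rw [max_eq_left (le_of_lt hs), ← norm_add_sq, Real.log_pow]
  push_cast
  ring

theorem hasDerivAt_hl_in {ε : ℝ} {b : ℂ} {t θ : ℝ}
    (h : ‖b + (t : ℂ) * ue θ‖ < ε) :
    HasDerivAt (fun t : ℝ => hl ε (b + (t : ℂ) * ue θ))
      ((hlg ε (b + (t : ℂ) * ue θ) * conj (ue θ)).re) t := by
  have h1 : (hlg ε (b + (t : ℂ) * ue θ) * conj (ue θ)).re = 0 := by
    unfold hlg
    rw [if_neg (not_lt.2 h.le), zero_mul, zero_re]
  rw [h1]
  refine (hasDerivAt_const t (Real.log ε)).congr_of_eventuallyEq ?_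
  have hc : Continuous (fun t : ℝ => ‖b + (t : ℂ) * ue θ‖) := by fun_prop
  filter_upwards [hc.continuousAt.eventually (gt_mem_nhds h)] with s hs
  unfold hl
  rw [max_eq_right (le_of_lt hs)]

theorem ray_hl {ε : ℝ} (hε : 0 < ε) (b : ℂ) (θ S T : ℝ) :
    ∫ t in S..T, (hlg ε (b + (t : ℂ) * ue θ) * conj (ue θ)).re =
      hl ε (b + (T : ℂ) * ue θ) - hl ε (b + (S : ℂ) * ue θ) := by
  set c := (b * conj (ue θ)).re with hc
  have hcount : ({t : ℝ | ‖b + (t : ℂ) * ue θ‖ = ε} : Set ℝ).Countable := by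
    refine Set.Finite.countable ?_
    refine Set.Finite.subset (Set.toFinite {-c + √(c ^ 2 + (ε ^ 2 - ‖b‖ ^ 2)),
      -c - √(c ^ 2 + (ε ^ 2 - ‖b‖ ^ 2))}) ?_
    intro t ht
    have h1 : ‖b + (t : ℂ) * ue θ‖ ^ 2 = ε ^ 2 := by rw [show ‖b + (t : ℂ) * ue θ‖ = ε from ht]
    rw [norm_add_sq, ← hc] at h1
    have h2 : (t + c) ^ 2 = c ^ 2 + (ε ^ 2 - ‖b‖ ^ 2) := by linarith
    have h3 : √(c ^ 2 + (ε ^ 2 - ‖b‖ ^ 2)) = |t + c| := by
      rw [← h2, Real.sqrt_sq_eq_abs]
    rw [h3]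
    rcases abs_cases (t + c) with h | h
    · left
      rw [h.1]
      ring
    · right
      rw [mem_singleton_iff, h.1]
      ring
  refine MeasureTheory.integral_eq_of_hasDerivAt_off_countable
    (fun t : ℝ => hl ε (b + (t : ℂ) * ue θ))
    (fun t : ℝ => (hlg ε (b + (t : ℂ) * ue θ) * conj (ue θ)).re) hcount ?_ ?_ ?_
  · refine Continuous.continuousOn ?_
    exact (continuous_hl hε).comp (by fun_prop)
  · intro t ht
    have h1 : ‖b + (t : ℂ) * ue θ‖ ≠ ε := ht.2
    rcases lt_or_gt_of_ne h1 with h | h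
    · exact hasDerivAt_hl_in h
    · exact hasDerivAt_hl_out hε h
  · have hm : Measurable (fun t : ℝ => (hlg ε (b + (t : ℂ) * ue θ) * conj (ue θ)).re) := by
      refine Complex.measurable_re.comp (Measurable.mul_const ?_ _)
      exact (measurable_hlg ε).comp (by fun_prop)
    refine (intervalIntegrable_const (c := ε⁻¹)).mono_fun' hm.aestronglyMeasurable ?_
    refine Filter.Eventually.of_forall fun t => ?_
    simp only
    rw [Real.norm_eq_abs]
    refine (abs_re_le_norm _).trans ?_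
    rw [norm_mul, RCLike.norm_conj, norm_ue, mul_one]
    exact norm_hlg_le hε _

theorem ue_eq_exp (θ : ℝ) : ue θ = Complex.exp (θ * I) := by
  rw [Complex.exp_mul_I, ← Complex.ofReal_cos, ← Complex.ofReal_sin]
  rfl

theorem ue_add_two_pi (θ : ℝ) : ue (θ + 2 * π) = ue θ := by
  unfold ue
  rw [Real.cos_add_two_pi, Real.sin_add_two_pi]

/-- the mean of `hl ε` over a circle of radius `ε` -/
theorem mean_hl {ε : ℝ} (hε : 0 < ε) (b : ℂ) :
    2 * π * Real.log (max ‖b‖ ε) ≤ ∫ θ in Ioo (-π) π, hl ε (b + (ε : ℂ) * ue θ) := by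
  have h1 : ∫ θ in Ioo (-π) π, hl ε (b + (ε : ℂ) * ue θ) =
      ∫ θ in (0 : ℝ)..(2 * π), hl ε (b + (ε : ℂ) * ue θ) := by
    rw [← integral_Ioc_eq_integral_Ioo, ← intervalIntegral.integral_of_le (by linarith [Real.pi_pos])]
    have hp : Function.Periodic (fun θ => hl ε (b + (ε : ℂ) * ue θ)) (2 * π) := by
      intro θ
      simp only
      rw [ue_add_two_pi]
    have := hp.intervalIntegral_add_eq (-π) 0
    rw [show -π + 2 * π = π by ring, zero_add] at this
    exact this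
  have h2 := circleAverage_log_norm_sub_const_eq_log_radius_add_posLog (a := (0 : ℂ)) (c := b)
    hε.ne'
  have h3 : Real.log ε + Real.posLog (ε⁻¹ * ‖b - 0‖) = Real.log (max ‖b‖ ε) := by
    rw [sub_zero]
    rcases le_total ‖b‖ ε with h | h
    · rw [max_eq_right h, (Real.posLog_eq_zero_iff _).2, add_zero]
      rw [abs_of_nonneg (by positivity)]
      rw [inv_mul_le_iff₀ hε, mul_one]
      exact h
    · rw [max_eq_left h, Real.posLog_eq_log]
      · rw [Real.log_mul (by positivity) (by linarith), Real.log_inv]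
        ring
      · rw [abs_of_nonneg (by positivity), ← div_eq_inv_mul, le_div_iff₀ hε, one_mul]
        exact h
  rw [h3] at h2
  rw [Real.circleAverage_def] at h2
  have h4 : ∫ θ in (0 : ℝ)..(2 * π), Real.log ‖circleMap b ε θ - 0‖ =
      2 * π * Real.log (max ‖b‖ ε) := by
    rw [← h2, smul_eq_mul]
    have := Real.pi_pos
    field_simp
  rw [h1, ← h4]
  have hcnt : (circleMap b ε ⁻¹' {0}).Countable :=
    (Set.countable_singleton (0 : ℂ)).preimage_circleMap b hε.ne'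
  have hae : ∀ᵐ θ : ℝ, circleMap b ε θ ≠ 0 := by
    have := hcnt.ae_notMem volume
    filter_upwards [this] with θ hθ h
    exact hθ h
  refine intervalIntegral.integral_mono_ae (by positivity) ?_ ?_ ?_
  · have := MeromorphicOn.circleIntegrable_log_norm (c := b) (R := ε) (f := fun z => z - 0)
      (fun z _ => by fun_prop)
    exact this
  · refine Continuous.intervalIntegrable ?_ _ _
    have := continuous_ue
    exact (continuous_hl hε).comp (by fun_prop)
  · filter_upwards [hae] with θ hθ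
    have h5 : circleMap b ε θ - 0 = b + (ε : ℂ) * ue θ := by
      rw [sub_zero, circleMap, ue_eq_exp]
    rw [h5]
    have h : b + (ε : ℂ) * ue θ ≠ 0 := by
      rw [← h5, sub_zero]
      exact hθ
    exact Real.log_le_log (norm_pos_iff.2 h) (le_max_left _ _)

end Pool.Agent.H57.EH
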